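import Pool.Agent.W844.DO.Defs

/-! Project DO (helper844): facts on the integrated tail. -/

set_option autoImplicit false

open MeasureTheory Filter Topology Set
open scoped ENNReal

namespace Pool.Agent.W54.DO

open Pool.Agent.W844.DO

variable {μ : Measure ℝ}

lemma fin (h : Lev μ) {x : ℝ} (hx : 0 < x) : μ (Iio (-x)) ≠ ⊤ := by
  have h1 := h.2
  have hc : 0 < min 1 (x ^ 2) := lt_min one_pos (by positivity)
  have h2 : ENNReal.ofReal (min 1 (x ^ 2)) * μ (Iio (-x)) ≤
      ∫⁻ x, ENNReal.ofReal (min 1 (x ^ 2)) ∂μ := by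
    calc ENNReal.ofReal (min 1 (x ^ 2)) * μ (Iio (-x))
        = ∫⁻ _ in Iio (-x), ENNReal.ofReal (min 1 (x ^ 2)) ∂μ := by rw [setLIntegral_const]
      _ ≤ ∫⁻ y in Iio (-x), ENNReal.ofReal (min 1 (y ^ 2)) ∂μ := by
          apply setLIntegral_mono' measurableSet_Iio
          intro y hy
          apply ENNReal.ofReal_le_ofReal
          apply min_le_min le_rfl
          have : y < -x := hy
          nlinarith
      _ ≤ _ := setLIntegral_le_lintegral _ _
  intro ht
  rw [ht, ENNReal.mul_top (by rw [Ne, ENNReal.ofReal_eq_zero, not_le]; exact hc)] at h2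
  exact absurd h1 (not_lt.2 h2)

lemma tl_nn (x : ℝ) : 0 ≤ tl μ x := ENNReal.toReal_nonneg

lemma g_anti : Antitone (fun y : ℝ => μ (Iio (-y))) := fun x y hxy =>
  measure_mono (Iio_subset_Iio (by linarith))

lemma tl_anti (h : Lev μ) : AntitoneOn (tl μ) (Ioi 0) := fun x hx y _ hxy =>
  ENNReal.toReal_mono (fin h hx) (g_anti hxy)

lemma tl_meas : Measurable (tl μ) := (g_anti (μ := μ)).measurable.ennreal_toReal

lemma tl_ii (h : Lev μ) {a b : ℝ} (ha : 0 < a) (hb : 0 < b) :
    IntervalIntegrable (tl μ) volume a b :=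
  AntitoneOn.intervalIntegrable ((tl_anti h).mono fun _ hx => lt_of_lt_of_le (lt_min ha hb) hx.1)

lemma tl_rc (h : Lev μ) {x : ℝ} (hx : 0 < x) : ContinuousWithinAt (tl μ) (Ioi x) x := by
  have h1 := (g_anti (μ := μ)).tendsto_nhdsGT x
  have h2 : sSup ((fun y : ℝ => μ (Iio (-y))) '' Ioi x) = μ (Iio (-x)) := by
    apply le_antisymm
    · apply sSup_le
      rintro _ ⟨y, hy, rfl⟩
      exact g_anti (le_of_lt hy)
    · have h3 : Iio (-x) = ⋃ n : ℕ, Iio (-(x + 1 / ((n : ℝ) + 1))) := by
        ext y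
        simp only [mem_Iio, mem_iUnion]
        constructor
        · intro hy
          obtain ⟨n, hn⟩ := exists_nat_one_div_lt (show 0 < -x - y by linarith)
          exact ⟨n, by linarith⟩
        · rintro ⟨n, hn⟩
          have : 0 < 1 / ((n : ℝ) + 1) := by positivity
          linarith
      have h4 : Monotone (fun n : ℕ => Iio (-(x + 1 / ((n : ℝ) + 1)))) := by
        intro n m hnm
        apply Iio_subset_Iio
        have : 1 / ((m : ℝ) + 1) ≤ 1 / ((n : ℝ) + 1) := by
          apply one_div_le_one_div_of_le (by positivity)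
          have : (n : ℝ) ≤ m := by exact_mod_cast hnm
          linarith
        linarith
      rw [h3, h4.measure_iUnion]
      apply iSup_le
      intro n
      apply le_sSup
      refine ⟨x + 1 / ((n : ℝ) + 1), ?_, rfl⟩
      have : 0 < 1 / ((n : ℝ) + 1) := by positivity
      show x < _
      linarith
  rw [h2] at h1
  exact (ENNReal.tendsto_toReal (fin h hx)).comp h1

lemma K0_rd (h : Lev μ) {x : ℝ} (hx : 0 < x) : HasDerivWithinAt (K0 μ) (-tl μ x) (Ioi x) x := by
  have h1 := intervalIntegral.integral_hasDerivWithinAt_left (tl_ii h hx one_pos) (s := Ici x)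
    (t := Ioi x) (tl_meas.stronglyMeasurable.stronglyMeasurableAtFilter) (tl_rc h hx)
  exact h1.mono Ioi_subset_Ici_self

lemma K0_cont (h : Lev μ) : ContinuousOn (K0 μ) (Ioi 0) := by
  intro x hx
  have hx0 : (0 : ℝ) < x := hx
  have hlo : 0 < min (x / 2) (1 / 2) := lt_min (by linarith) (by norm_num)
  have hhi : 0 < max (x + 1) 2 := lt_max_of_lt_right (by norm_num)
  have hle : min (x / 2) (1 / 2) ≤ max (x + 1) 2 :=
    (min_le_right _ _).trans ((by norm_num : (1 / 2 : ℝ) ≤ 2).trans (le_max_right _ _))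
  have h1 := intervalIntegral.continuousOn_primitive_interval' (tl_ii h hlo hhi) (a := 1) (by
    rw [uIcc_of_le hle]
    exact ⟨(min_le_right _ _).trans (by norm_num), (by norm_num : (1 : ℝ) ≤ 2).trans
      (le_max_right _ _)⟩)
  rw [uIcc_of_le hle] at h1
  have h2 : ContinuousAt (fun b => ∫ y in (1 : ℝ)..b, tl μ y) x := by
    apply h1.continuousAt
    apply Icc_mem_nhds
    · exact (min_le_left _ _).trans_lt (by linarith)
    · exact lt_of_lt_of_le (by linarith) (le_max_left _ _)
  have h3 : K0 μ = fun b => -∫ y in (1 : ℝ)..b, tl μ y := by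
    funext b
    unfold K0
    rw [intervalIntegral.integral_symm]
  rw [h3]
  exact h2.neg.continuousWithinAt

lemma ytl_int (h : Lev μ) : IntegrableOn (fun y => y * tl μ y) (Ioc 0 1) := by
  refine ⟨(measurable_id.mul tl_meas).aestronglyMeasurable, ?_⟩
  have hlc := lintegral_comp_eq_lintegral_meas_lt_mul μ (f := fun z : ℝ => min 1 |z|)
    (g := fun t => t) (Eventually.of_forall fun z => le_min zero_le_one (abs_nonneg z))
    (measurable_const.min measurable_id.abs).aemeasurable
    (fun t _ => intervalIntegral.intervalIntegrable_id)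
    (by
      filter_upwards [self_mem_ae_restrict (measurableSet_Ioi (a := (0 : ℝ)))] with t ht
      exact le_of_lt ht)
  have h1 : ∫⁻ z, ENNReal.ofReal (∫ t in (0 : ℝ)..min 1 |z|, t) ∂μ ≤
      ∫⁻ z, ENNReal.ofReal (min 1 (z ^ 2)) ∂μ := by
    apply lintegral_mono
    intro z
    apply ENNReal.ofReal_le_ofReal
    rw [integral_id]
    have h2 : (min 1 |z|) ^ 2 ≤ min 1 (z ^ 2) := by
      apply le_min
      · have : min 1 |z| ≤ 1 := min_le_left _ _
        have h3 : 0 ≤ min 1 |z| := le_min zero_le_one (abs_nonneg z)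
        nlinarith
      · have : min 1 |z| ≤ |z| := min_le_right _ _
        have h3 : 0 ≤ min 1 |z| := le_min zero_le_one (abs_nonneg z)
        rw [← sq_abs z]
        exact pow_le_pow_left₀ h3 this 2
    have h3 : 0 ≤ (min 1 |z|) ^ 2 := sq_nonneg _
    linarith
  rw [hlc] at h1
  show ∫⁻ y in Ioc (0 : ℝ) 1, ‖y * tl μ y‖ₑ < ⊤
  calc ∫⁻ y in Ioc (0 : ℝ) 1, ‖y * tl μ y‖ₑ
      = ∫⁻ y in Ioo (0 : ℝ) 1, ‖y * tl μ y‖ₑ := by rw [restrict_Ioo_eq_restrict_Ioc]
    _ ≤ ∫⁻ y in Ioo (0 : ℝ) 1, μ {a | y < min 1 |a|} * ENNReal.ofReal y := by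
        apply setLIntegral_mono' measurableSet_Ioo
        intro y hy
        rw [Real.enorm_of_nonneg (mul_nonneg hy.1.le (tl_nn y)), ENNReal.ofReal_mul hy.1.le,
          mul_comm]
        gcongr
        unfold tl
        rw [ENNReal.ofReal_toReal (fin h hy.1)]
        apply measure_mono
        intro a ha
        have ha' : a < -y := ha
        show y < min 1 |a|
        apply lt_min hy.2
        rw [abs_of_neg (by linarith [hy.1])]
        linarith
    _ ≤ ∫⁻ y in Ioi (0 : ℝ), μ {a | y < min 1 |a|} * ENNReal.ofReal y :=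
        lintegral_mono_set Ioo_subset_Ioi_self
    _ ≤ _ := h1
    _ < ⊤ := h.2

lemma K0_one : K0 μ 1 = 0 := by unfold K0; simp

lemma K0_nn {x : ℝ} (hx : x ≤ 1) : 0 ≤ K0 μ x := by
  unfold K0
  exact intervalIntegral.integral_nonneg hx fun y _ => tl_nn y

/-- integration by parts away from zero -/
lemma parts (h : Lev μ) {a b : ℝ} (ha : 0 < a) (hb : 0 < b) :
    IntervalIntegrable (fun y => K0 μ y - y * tl μ y) volume a b ∧
    ∫ y in a..b, (K0 μ y - y * tl μ y) = b * K0 μ b - a * K0 μ a := by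
  have hsub : uIcc a b ⊆ Ioi 0 := fun x hx => lt_of_lt_of_le (lt_min ha hb) hx.1
  have hi : IntervalIntegrable (fun y => K0 μ y - y * tl μ y) volume a b := by
    apply IntervalIntegrable.sub
    · exact ((K0_cont h).mono hsub).intervalIntegrable
    · exact (tl_ii h ha hb).continuousOn_mul continuousOn_id
  refine ⟨hi, ?_⟩
  have hc : ContinuousOn (fun y => y * K0 μ y) (uIcc a b) :=
    continuousOn_id.mul ((K0_cont h).mono hsub)
  apply intervalIntegral.integral_eq_sub_of_hasDeriv_right hc _ hi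
  intro x hx
  have hx0 : 0 < x := lt_trans (lt_min ha hb) hx.1
  have h1 := (hasDerivWithinAt_id x (Ioi x)).mul (K0_rd h hx0)
  refine h1.congr_deriv ?_
  show 1 * K0 μ x + x * -tl μ x = _
  ring

lemma K0_int (h : Lev μ) : IntegrableOn (K0 μ) (Ioc 0 1) := by
  set I : ℝ := ∫ y in Ioc (0 : ℝ) 1, y * tl μ y with hI
  have hpos : ∀ n : ℕ, (0 : ℝ) < 1 / ((n : ℝ) + 1) := fun n => by positivity
  have hle1 : ∀ n : ℕ, 1 / ((n : ℝ) + 1) ≤ 1 := fun n => by
    rw [div_le_one (by positivity)]
    have : (0 : ℝ) ≤ n := Nat.cast_nonneg n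
    linarith
  refine integrableOn_Ioc_of_intervalIntegral_norm_bounded_left (I := I) (l := atTop)
    (a := fun n : ℕ => 1 / ((n : ℝ) + 1)) (fun n => ?_) tendsto_one_div_add_atTop_nhds_zero_nat
    (Eventually.of_forall fun n => ?_)
  · have := ((K0_cont h).mono (fun x hx => lt_of_lt_of_le (lt_min (hpos n) one_pos) hx.1 :
      uIcc (1 / ((n : ℝ) + 1)) 1 ⊆ Ioi 0)).intervalIntegrable (μ := volume)
    rwa [intervalIntegrable_iff_integrableOn_Ioc_of_le (hle1 n)] at this
  · have h1 : ∫ x in Ioc (1 / ((n : ℝ) + 1)) 1, ‖K0 μ x‖ = ∫ x in (1 / ((n : ℝ) + 1))..1, K0 μ x := by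
      rw [intervalIntegral.integral_of_le (hle1 n)]
      apply setIntegral_congr_fun measurableSet_Ioc
      intro x hx
      simp only
      rw [Real.norm_of_nonneg (K0_nn hx.2)]
    rw [h1]
    obtain ⟨p1, p2⟩ := parts h (hpos n) one_pos
    have p3 : IntervalIntegrable (fun y => y * tl μ y) volume (1 / ((n : ℝ) + 1)) 1 :=
      (tl_ii h (hpos n) one_pos).continuousOn_mul continuousOn_id
    have h2 : ∫ x in (1 / ((n : ℝ) + 1))..1, K0 μ x =
        (∫ y in (1 / ((n : ℝ) + 1))..1, (K0 μ y - y * tl μ y)) +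
        ∫ y in (1 / ((n : ℝ) + 1))..1, y * tl μ y := by
      rw [← intervalIntegral.integral_add p1 p3]
      apply intervalIntegral.integral_congr
      intro y _
      simp only
      ring
    rw [h2, p2, K0_one]
    have h3 : 0 ≤ 1 / ((n : ℝ) + 1) * K0 μ (1 / ((n : ℝ) + 1)) :=
      mul_nonneg (hpos n).le (K0_nn (hle1 n))
    have h4 : ∫ y in (1 / ((n : ℝ) + 1))..1, y * tl μ y ≤ I := by
      rw [intervalIntegral.integral_of_le (hle1 n), hI]
      apply setIntegral_mono_set (ytl_int h)
      · filter_upwards [self_mem_ae_restrict (measurableSet_Ioc (a := (0 : ℝ)) (b := 1))] with y hy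
        exact mul_nonneg hy.1.le (tl_nn y)
      · exact (Ioc_subset_Ioc_left (hpos n).le).eventuallyLE
    linarith

/-- `x K0(x)` tends to zero at zero -/
lemma xK0_lim (h : Lev μ) : Tendsto (fun x => x * K0 μ x) (𝓝[>] 0) (𝓝 0) := by
  have h1 : Tendsto (fun e : ℝ => ∫ y in Ioc (0 : ℝ) 1, (Ioi e).indicator (fun y => e * tl μ y) y)
      (𝓝[>] 0) (𝓝 (∫ _ in Ioc (0 : ℝ) 1, (0 : ℝ))) := by
    apply tendsto_integral_filter_of_dominated_convergence (fun y => y * tl μ y)
    · filter_upwards with e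
      exact ((measurable_const.mul tl_meas).indicator measurableSet_Ioi).aestronglyMeasurable
    · filter_upwards [self_mem_nhdsWithin] with e he
      filter_upwards [self_mem_ae_restrict (measurableSet_Ioc (a := (0 : ℝ)) (b := 1))] with y hy
      by_cases hye : e < y
      · rw [indicator_of_mem (show y ∈ Ioi e from hye), Real.norm_of_nonneg
          (mul_nonneg (le_of_lt he) (tl_nn y))]
        exact mul_le_mul_of_nonneg_right hye.le (tl_nn y)
      · rw [indicator_of_notMem (show y ∉ Ioi e from hye), norm_zero]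
        exact mul_nonneg hy.1.le (tl_nn y)
    · exact ytl_int h
    · filter_upwards with y
      have h2 : Tendsto (fun e : ℝ => |e| * tl μ y) (𝓝[>] 0) (𝓝 0) := by
        have : Tendsto (fun e : ℝ => |e| * tl μ y) (𝓝 0) (𝓝 (|0| * tl μ y)) :=
          (continuous_abs.tendsto 0).mul_const _
        rw [abs_zero, zero_mul] at this
        exact this.mono_left nhdsWithin_le_nhds
      apply squeeze_zero_norm _ h2
      intro e
      by_cases hye : e < y
      · rw [indicator_of_mem (show y ∈ Ioi e from hye), norm_mul, Real.norm_eq_abs,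
          Real.norm_of_nonneg (tl_nn y)]
      · rw [indicator_of_notMem (show y ∉ Ioi e from hye), norm_zero]
        exact mul_nonneg (abs_nonneg e) (tl_nn y)
  rw [integral_zero] at h1
  refine h1.congr' ?_
  filter_upwards [Ioo_mem_nhdsGT (show (0 : ℝ) < 1 by norm_num)] with e he
  rw [setIntegral_indicator measurableSet_Ioi, Ioc_inter_Ioi, sup_of_le_right he.1.le,
    integral_const_mul]
  unfold K0
  rw [intervalIntegral.integral_of_le he.2.le]

theorem sK : S_K := by
  intro μ h
  refine ⟨K0_cont h, K0_int h, ytl_int h, ?_, ?_, ?_, ?_⟩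
  · intro x hx
    have hx0 : 0 < x := by linarith
    unfold K0
    rw [intervalIntegral.integral_symm, abs_neg, abs_of_nonneg
      (intervalIntegral.integral_nonneg hx fun y _ => tl_nn y)]
    have h1 : ∫ y in (1 : ℝ)..x, tl μ y ≤ ∫ _ in (1 : ℝ)..x, tl μ 1 := by
      apply intervalIntegral.integral_mono_on hx (tl_ii h one_pos hx0)
        intervalIntegrable_const
      intro y hy
      exact tl_anti h (show (0 : ℝ) < 1 by norm_num) (lt_of_lt_of_le one_pos hy.1) hy.1
    rw [intervalIntegral.integral_const, smul_eq_mul] at h1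
    have h2 := tl_nn (μ := μ) 1
    nlinarith
  · intro x hx
    exact ⟨tl_nn x, tl_anti h (show (0 : ℝ) < 1 by norm_num) (lt_of_lt_of_le one_pos hx) hx⟩
  · intro x hx
    have hi01 : IntervalIntegrable (fun y => K0 μ y - y * tl μ y) volume 0 1 := by
      rw [intervalIntegrable_iff_integrableOn_Ioc_of_le zero_le_one]
      exact (K0_int h).sub (ytl_int h)
    have hi : IntervalIntegrable (fun y => K0 μ y - y * tl μ y) volume 0 x :=
      hi01.trans (parts h one_pos hx).1
    refine ⟨hi, ?_⟩
    have h1 : Tendsto (fun e : ℝ => ∫ y in e..x, (K0 μ y - y * tl μ y)) (𝓝[>] 0)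
        (𝓝 (∫ y in (0 : ℝ)..x, (K0 μ y - y * tl μ y))) := by
      have hc : ContinuousOn (fun b => ∫ y in x..b, (K0 μ y - y * tl μ y)) (uIcc 0 x) :=
        intervalIntegral.continuousOn_primitive_interval' hi right_mem_uIcc
      have h2 : Tendsto (fun b => ∫ y in x..b, (K0 μ y - y * tl μ y)) (𝓝[>] 0)
          (𝓝 (∫ y in x..0, (K0 μ y - y * tl μ y))) := by
        have h3 := hc 0 left_mem_uIcc
        rw [uIcc_of_le hx.le] at h3
        have h4 : 𝓝[>] (0 : ℝ) ≤ 𝓝[Icc 0 x] 0 := by
          rw [← nhdsWithin_Ioc_eq_nhdsGT hx]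
          exact nhdsWithin_mono _ Ioc_subset_Icc_self
        exact h3.mono_left h4
      have h5 := h2.neg
      rw [← intervalIntegral.integral_symm] at h5
      refine h5.congr fun e => ?_
      rw [← intervalIntegral.integral_symm]
    have h2 : Tendsto (fun e : ℝ => ∫ y in e..x, (K0 μ y - y * tl μ y)) (𝓝[>] 0)
        (𝓝 (x * K0 μ x - 0)) := by
      have h3 : Tendsto (fun e : ℝ => x * K0 μ x - e * K0 μ e) (𝓝[>] 0) (𝓝 (x * K0 μ x - 0)) :=
        tendsto_const_nhds.sub (xK0_lim h)
      refine h3.congr' ?_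
      filter_upwards [self_mem_nhdsWithin] with e he
      exact (parts h he hx).2.symm
    have h3 := tendsto_nhds_unique h1 h2
    rw [h3, sub_zero]
  · intro m
    constructor
    · intro hK
      have hK' : ContDiffOn ℝ ((m : WithTop ℕ∞) + 1) (K0 μ) (Ioi 0) := by
        refine hK.of_le (le_of_eq ?_)
        push_cast
        rfl
      rw [contDiffOn_succ_iff_deriv_of_isOpen isOpen_Ioi] at hK'
      obtain ⟨h1, -, h2⟩ := hK'
      have h3 : ContDiffOn ℝ (m : WithTop ℕ∞) (fun x => -deriv (K0 μ) x) (Ioi 0) := h2.neg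
      have h4 : ContDiffOn ℝ (m : WithTop ℕ∞) (tl μ) (Ioi 0) := by
        refine h3.congr fun x hx => ?_
        have h5 : HasDerivWithinAt (K0 μ) (deriv (K0 μ) x) (Ioi x) x :=
          ((h1 x hx).differentiableAt (isOpen_Ioi.mem_nhds hx)).hasDerivAt.hasDerivWithinAt
        have h6 := (uniqueDiffWithinAt_Ioi x).eq_deriv _ h5 (K0_rd h hx)
        rw [h6, neg_neg]
      refine h4.of_le (le_of_eq ?_)
      push_cast
      rfl
    · intro hT
      have hcont : ContinuousOn (tl μ) (Ioi 0) := hT.continuousOn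
      have hd : ∀ x, 0 < x → HasDerivAt (K0 μ) (-tl μ x) x := by
        intro x hx
        exact intervalIntegral.integral_hasDerivAt_left (tl_ii h hx one_pos)
          (tl_meas.stronglyMeasurable.stronglyMeasurableAtFilter)
          (hcont.continuousAt (isOpen_Ioi.mem_nhds hx))
      have hK : ContDiffOn ℝ ((m : WithTop ℕ∞) + 1) (K0 μ) (Ioi 0) := by
        rw [contDiffOn_succ_iff_deriv_of_isOpen isOpen_Ioi]
        refine ⟨fun x hx => (hd x hx).differentiableAt.differentiableWithinAt, ?_, ?_⟩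
        · intro hω
          exact absurd hω (by exact_mod_cast WithTop.coe_ne_top)
        · have h1 : ContDiffOn ℝ (m : WithTop ℕ∞) (fun x => -tl μ x) (Ioi 0) := by
            refine (hT.of_le (le_of_eq ?_)).neg
            push_cast
            rfl
          exact h1.congr fun x hx => (hd x hx).deriv
      refine hK.of_le (le_of_eq ?_)
      push_cast
      rfl

end Pool.Agent.W54.DO
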